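import Pool.Agent.Helper68.SG2.GoalsC
import Pool.Agent.Helper29.BL.PS

/-!
# Project SG, stage 2 (MP_a41896_nt): the key inequality (adapted from `Helper37/SGC1/KEYA.lean`)
-/

set_option autoImplicit false

open MvPolynomial

namespace Pool.Agent.Helper36.SG2

open WeierstrassCurve Height
open Pool.Agent.Helper29.BL Pool.Agent.Helper92.Ru Pool.Agent.Helper42.SG
open Pool.Agent.Helper76.SGC (hz ho SPL NFB)
open Pool.Agent.Helper77.SGC (N0)
open Pool.Agent.Helper68.SG2

noncomputable section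

lemma cost_nonneg (T : ℕ → Bool) (n M : ℕ) (e : ℕ → ℕ) (a L : ℕ → ℝ)
    (ha : ∀ h < 2 * n + 2, 1 ≤ a h) (hL : ∀ h < 2 * n, T (h % 2) = true → 1 ≤ L h) (h : ℕ)
    (hh : h < 2 * n) : 0 ≤ cost T n M e a L h := by
  unfold cost
  have p : ∀ h < 2 * n + 2, 0 ≤ a h := fun h hh => le_trans zero_le_one (ha h hh)
  have h1 := p h (by omega)
  have h2 := p (2 * n + h % 2) (by omega)
  split_ifs with hT
  · have h3 : 0 ≤ L h := le_trans zero_le_one (hL h hh hT)
    positivity
  · positivity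

lemma gn_nonneg (T : ℕ → Bool) (n : ℕ) (a G : ℕ → ℝ) (ha : ∀ h < 2 * n + 2, 1 ≤ a h) (h : ℕ)
    (hh : h < 2 * n) : 0 ≤ gn T a G h := by
  unfold gn
  split_ifs with hT
  · positivity
  · exact le_trans zero_le_one (ha h (by omega))

lemma keyT_nonneg (T : ℕ → Bool) (n M δ k0 : ℕ) (e : ℕ → ℕ) (a G L : ℕ → ℝ)
    (ha : ∀ h < 2 * n + 2, 1 ≤ a h) (hL : ∀ h < 2 * n, T (h % 2) = true → 1 ≤ L h) :
    0 ≤ keyT T n M δ k0 e a G L := by
  unfold keyT
  have p : ∀ h < 2 * n + 2, 0 ≤ a h := fun h hh => le_trans zero_le_one (ha h hh)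
  have p0 := p (2 * n) (by omega)
  have p1 := p (2 * n + 1) (by omega)
  refine mul_nonneg (Finset.prod_nonneg fun j hj => ?_) (pow_nonneg (mul_nonneg p0 p1) _)
  have hj' := Finset.mem_range.1 hj
  have q0 := cost_nonneg T n M e a L ha hL (2 * j) (by omega)
  have q1 := cost_nonneg T n M e a L ha hL (2 * j + 1) (by omega)
  have g0 := gn_nonneg T n a G ha (2 * j) (by omega)
  have g1 := gn_nonneg T n a G ha (2 * j + 1) (by omega)
  exact div_nonneg (mul_nonneg q0 q1) (pow_nonneg (le_min g0 g1) _)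

lemma prod_two (f : ℕ → ℝ) (n : ℕ) :
    ∏ h : Fin (2 * n), f h.val = ∏ j ∈ Finset.range n, (f (2 * j) * f (2 * j + 1)) := by
  rw [Fin.prod_univ_eq_prod_range f (2 * n)]
  induction n with
  | zero => simp
  | succ n ih =>
    rw [Finset.prod_range_succ, ← ih, show 2 * (n + 1) = 2 * n + 1 + 1 by ring,
      Finset.prod_range_succ, Finset.prod_range_succ]
    ring

lemma prodB (n M : ℕ) (e : ℕ → ℕ) (b : ℕ → ℝ) :
    (∏ h : Fin (2 * n), (b (h.val % 2)) ^ (4 ^ e (h.val / 2) * (M + 1))) =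
      ((b 0 * b 1) ^ (M + 1)) ^ Pool.Agent.Helper42.SG.sq n e := by
  rw [prod_two (fun h => (b (h % 2)) ^ (4 ^ e (h / 2) * (M + 1))) n]
  unfold Pool.Agent.Helper42.SG.sq
  rw [← Finset.prod_pow_eq_pow_sum]
  refine Finset.prod_congr rfl fun j _ => ?_
  have h1 : (2 * j) % 2 = 0 := by omega
  have h2 : (2 * j) / 2 = j := by omega
  have h3 : (2 * j + 1) % 2 = 1 := by omega
  have h4 : (2 * j + 1) / 2 = j := by omega
  simp only [h1, h2, h3, h4]
  rw [← mul_pow, ← pow_mul, mul_comm (M + 1)]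

lemma br_zero {K A : Type} [Field K] [CommRing A] [Algebra K A] (n M δ : ℕ) (e : ℕ → ℕ)
    (S : ℕ → Bool → Fin 2 → ℕ → ℕ → ℕ → ℕ → K) (c : Idx n M δ e → K)
    (lam : ℕ → Bool) (X : ℕ → A) (μ : Fin (2 * n) → Fin 2) (i : Fin (2 * n) → ℕ)
    (h : Fin (2 * n))
    (hz : ∀ g i' m, S h.val (lam h.val) (μ h) (i h) g i' m = 0) :
    BrT n M δ e S c lam X μ i = 0 := by
  unfold BrT
  refine Finset.sum_eq_zero fun α _ => ?_
  have : (∏ h : Fin (2 * n), ∑ g ∈ Finset.range (2 * M + 1),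
      algebraMap K A (S h.val (lam h.val) (μ h) (i h) g (α.1 h).1.val (α.1 h).2.val) *
        X (2 * n + h.val % 2) ^ g) = 0 := by
    refine Finset.prod_eq_zero (Finset.mem_univ h) (Finset.sum_eq_zero fun g _ => ?_)
    rw [hz, map_zero, zero_mul]
  rw [this, mul_zero, zero_mul]

/-- Goal KEYIT. -/
theorem t_KEYIT (h1 : EXPT) (h2 : VANT) (h3 : NFB) (h4 : BRNT) (h5 : PRNT) (h6 : CNTT) :
    Pool.Agent.Helper68.SG2.KEYIT := by
  intro K _ _ T W B D n M δ k0 hB hn hM hδ
  obtain ⟨C, hC1, hC⟩ := h6 n M δ hn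
  have hB1 : ∀ i v, 1 ≤ B i v := fun i v => (hB i).one_le v
  refine ⟨fun v => cst v C * (B 0 v * B 1 v) ^ (M + 1), ⟨?_, ?_⟩, ?_⟩
  · intro v
    have := one_le_cst v hC1
    have h7 : 1 ≤ (B 0 v * B 1 v) ^ (M + 1) :=
      one_le_pow₀ (one_le_mul_of_one_le_of_one_le (hB1 0 v) (hB1 1 v))
    exact one_le_mul_of_one_le_of_one_le this h7
  · have h8 : FS (K := K) (fun v => Real.log (cst v C) +
        ((M + 1 : ℕ) : ℝ) * (Real.log (B 0 v) + Real.log (B 1 v))) :=
      (FS_log_cst C).add (((hB 0).fin.add (hB 1).fin).const_mul _)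
    refine h8.mono fun v _ hv => ?_
    have c0 : cst v C ≠ 0 := (cst_pos v hC1).ne'
    have b0 : B 0 v ≠ 0 := (lt_of_lt_of_le one_pos (hB1 0 v)).ne'
    have b1 : B 1 v ≠ 0 := (lt_of_lt_of_le one_pos (hB1 1 v)).ne'
    rw [Real.log_mul c0 (pow_ne_zero _ (mul_ne_zero b0 b1)), Real.log_pow,
      Real.log_mul b0 b1]
    exact hv
  intro F e S hS c hc v A _ _ N hN X Ψ a G L s b lam hOn hbd hs hF
  obtain ⟨n0, n1, npow, nprod, nsum⟩ := h3 K v A N hN
  have hb : 1 ≤ b := hbd.one_b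
  have ha := hbd.one_a
  have hGG := hbd.one_G
  have hL : ∀ h < 2 * n, T (h % 2) = true → 1 ≤ L h := by
    intro h hh hT
    rcases Bool.eq_false_or_eq_true (lam h) with hl | hl
    · exact (hbd.gmT h hh hT hl).2.2
    · exact le_trans (one_le_pow₀ (ha h (by omega))) (hbd.gmF h hh hT hl).2.2
  have α0 : Idx n M δ e := (fun h => (⟨0, by positivity⟩, ⟨0, by omega⟩), fun _ => ⟨0, by omega⟩)
  have hs0 : 0 ≤ s := le_trans (v.nonneg _) (hs α0)
  have hkB := keyT_nonneg T n M δ k0 e a G L ha hL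
  have hcard1 : (1 : ℝ) ≤ (Fintype.card (Idx n M δ e) : ℝ) * (2 * M + 1) ^ (2 * n) := by
    have hc0 : 1 ≤ Fintype.card (Idx n M δ e) := Fintype.card_pos_iff.2 ⟨α0⟩
    have hc1 : (1 : ℝ) ≤ (Fintype.card (Idx n M δ e) : ℝ) := by exact_mod_cast hc0
    refine one_le_mul_of_one_le_of_one_le hc1 (one_le_pow₀ ?_)
    have : (0 : ℝ) ≤ M := Nat.cast_nonneg M
    linarith
  set P := ∏ h : Fin (2 * n), (B (h.val % 2) v) ^ (4 ^ e (h.val / 2) * (M + 1)) with hP
  have hP0 : 0 ≤ P := Finset.prod_nonneg fun h _ => pow_nonneg (le_trans zero_le_one (hB1 _ _)) _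
  set Q := cst v ((Fintype.card (Idx n M δ e) : ℝ) * (2 * M + 1) ^ (2 * n)) with hQ
  have hQ0 : 0 ≤ Q := (cst_pos v hcard1).le
  set T0 := Q * s * P *
    (b ^ (2 * (M + 3) * Pool.Agent.Helper42.SG.sq n e) * keyT T n M δ k0 e a G L) with hT0
  have hT : 0 ≤ T0 := by
    have : 0 ≤ b := le_trans zero_le_one hb
    positivity
  rw [h1 K T W B D n M δ e S hS c A X Ψ hOn lam]
  -- every term
  have hterm : ∀ μ : Fin (2 * n) → Fin 2, ∀ i : Fin (2 * n) → ℕ,
      N ((∏ h : Fin (2 * n), bas T n lam X Ψ h.val (μ h) (i h)) *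
        BrT n M δ e S c lam X μ i) T0 := by
    intro μ i
    by_cases c1 : ∀ h : Fin (2 * n), T (h.val % 2) = false →
      i h + 2 * (μ h).val ≤ N0 M (e (h.val / 2))
    swap
    · push Not at c1
      obtain ⟨h, hTh, hh⟩ := c1
      rw [br_zero n M δ e S c lam X μ i h ?_, mul_zero]
      · exact hN.mono 0 0 T0 n0 hT
      · intro g i' m
        by_contra hne
        have := (hS.degE h.val h.isLt hTh _ _ _ _ _ _ hne).1
        omega
    by_cases c3 : ∀ h : Fin (2 * n), T (h.val % 2) = true →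
      i h ≤ 4 ^ e (h.val / 2) * (M + 1)
    swap
    · push Not at c3
      obtain ⟨h, hTh, hh⟩ := c3
      rw [br_zero n M δ e S c lam X μ i h ?_, mul_zero]
      · exact hN.mono 0 0 T0 n0 hT
      · intro g i' m
        by_contra hne
        obtain ⟨-, hg, hf, ht⟩ := hS.degG h.val h.isLt hTh _ _ _ _ _ _ hne
        rcases Bool.eq_false_or_eq_true (lam h.val) with hl | hl
        · have h9 := ht hl
          have h10 : 4 ^ e (h.val / 2) * (g + 1) ≤ 4 ^ e (h.val / 2) * (M + 1) :=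
            Nat.mul_le_mul_left _ (by omega)
          omega
        · have h9 := hf hl
          omega
    by_cases c2 : ∀ j : Fin n,
      ¬ ForbT T M k0 (e j.val) (μ (hz j)) (μ (ho j)) (i (hz j)) (i (ho j))
    swap
    · push Not at c2
      obtain ⟨j, hj⟩ := c2
      rw [h2 K T W B D n M δ k0 F e S hS c hc A lam X μ i j hF hj, mul_zero]
      exact hN.mono 0 0 T0 n0 hT
    have hbr := h4 K T W B D n M δ e S hS hB1 hn hδ c v A N hN X Ψ a G L s b lam hbd hs μ i
    have hpr := h5 T n M k0 e a G L b μ i hn hM ha hGG hL hb c1 c3 c2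
    have hpN : N (∏ h : Fin (2 * n), bas T n lam X Ψ h.val (μ h) (i h))
        (∏ h : Fin (2 * n), basB T n a G b h.val (μ h) (i h)) := by
      refine nprod _ Finset.univ _ _ fun h _ => ?_
      have hh := h.isLt
      have hm : h.val % 2 < 2 := Nat.mod_lt _ (by norm_num)
      unfold bas basB
      by_cases hTh : T (h.val % 2) = true
      · rw [if_pos hTh, if_pos hTh]
        by_cases hl : lam h.val = true
        · rw [if_pos hl]
          exact npow _ _ (hbd.gmT h.val hh hTh hl).1 _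
        · rw [if_neg hl]
          exact npow _ _ (hbd.gmF h.val hh hTh (Bool.eq_false_of_not_eq_true hl)).1 _
      · rw [if_neg hTh, if_neg hTh]
        have hTf := Bool.eq_false_of_not_eq_true hTh
        have hTf' : T ((2 * n + h.val % 2) % 2) = false := by
          have : (2 * n + h.val % 2) % 2 = h.val % 2 := by omega
          rw [this]
          exact hTf
        exact hN.mul _ _ _ _ (npow _ _ (hN.mul _ _ _ _ (hbd.ellP h.val (by omega) hTf)
          (hbd.ellP (2 * n + h.val % 2) (by omega) hTf')) _)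
          (npow _ _ (hbd.ellX h.val hh hTf) _)
    refine hN.mono _ _ _ (hN.mul _ _ _ _ hpN hbr) ?_
    rw [← hQ, ← hP]
    have ha0 : 0 ≤ a (2 * n) := le_trans zero_le_one (ha _ (by omega))
    have ha1 : 0 ≤ a (2 * n + 1) := le_trans zero_le_one (ha _ (by omega))
    have hpr' := mul_le_mul_of_nonneg_right hpr
      (pow_nonneg (mul_nonneg ha0 ha1) δ)
    calc _ = Q * s * P * ((∏ h : Fin (2 * n), basB T n a G b h.val (μ h) (i h)) *
            (∏ h : Fin (2 * n), RfB T n M e a L h.val (μ h) (i h)) *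
            (a (2 * n) * a (2 * n + 1)) ^ δ) := by ring
      _ ≤ _ := by
          rw [hT0]
          refine mul_le_mul_of_nonneg_left (le_trans hpr' (le_of_eq ?_)) (by positivity)
          unfold keyT
          ring
  have hinner : ∀ μ : Fin (2 * n) → Fin 2, N (∑ i ∈ Fintype.piFinset (fun h : Fin (2 * n) =>
      Finset.range (N0 M (e (h.val / 2)) + 1)),
      (∏ h : Fin (2 * n), bas T n lam X Ψ h.val (μ h) (i h)) * BrT n M δ e S c lam X μ i)
      (cst v ((Fintype.piFinset (fun h : Fin (2 * n) =>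
        Finset.range (N0 M (e (h.val / 2)) + 1))).card : ℝ) * T0) := fun μ =>
    nsum _ _ _ _ hT fun i _ => hterm μ i
  have hpi1 : (1 : ℝ) ≤ ((Fintype.piFinset (fun h : Fin (2 * n) =>
        Finset.range (N0 M (e (h.val / 2)) + 1))).card : ℝ) := by
    have : 1 ≤ (Fintype.piFinset (fun h : Fin (2 * n) =>
        Finset.range (N0 M (e (h.val / 2)) + 1))).card := by
      refine Finset.card_pos.2 ⟨fun _ => 0, ?_⟩
      rw [Fintype.mem_piFinset]
      intro h
      simp
    exact_mod_cast this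
  have hout := nsum _ (Finset.univ : Finset (Fin (2 * n) → Fin 2)) _ _
    (mul_nonneg (cst_pos v hpi1).le hT) fun μ _ => hinner μ
  refine hN.mono _ _ _ hout ?_
  rw [Finset.card_univ, hT0, prodB n M e (fun i => B i v)] at *
  have hcst : cst v ((Fintype.card (Fin (2 * n) → Fin 2) : ℕ) : ℝ) *
      cst v ((Fintype.piFinset (fun h : Fin (2 * n) =>
        Finset.range (N0 M (e (h.val / 2)) + 1))).card : ℝ) * Q ≤
        cst v C ^ Pool.Agent.Helper42.SG.sq n e := by
    rw [hQ, ← cst_mul, ← cst_mul, ← cst_pow]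
    exact cst_mono v (hC e)
  have hb0 : 0 ≤ b := le_trans zero_le_one hb
  have hBB : 0 ≤ ((B 0 v * B 1 v) ^ (M + 1)) ^ Pool.Agent.Helper42.SG.sq n e :=
    pow_nonneg (pow_nonneg (mul_nonneg (le_trans zero_le_one (hB1 0 v))
      (le_trans zero_le_one (hB1 1 v))) _) _
  calc _ = (cst v ((Fintype.card (Fin (2 * n) → Fin 2) : ℕ) : ℝ) *
      cst v ((Fintype.piFinset (fun h : Fin (2 * n) =>
        Finset.range (N0 M (e (h.val / 2)) + 1))).card : ℝ) * Q) *
        (s * ((B 0 v * B 1 v) ^ (M + 1)) ^ Pool.Agent.Helper42.SG.sq n e *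
        (b ^ (2 * (M + 3) * Pool.Agent.Helper42.SG.sq n e) * keyT T n M δ k0 e a G L)) := by
        rw [hP]; ring
    _ ≤ cst v C ^ Pool.Agent.Helper42.SG.sq n e *
        (s * ((B 0 v * B 1 v) ^ (M + 1)) ^ Pool.Agent.Helper42.SG.sq n e *
        (b ^ (2 * (M + 3) * Pool.Agent.Helper42.SG.sq n e) * keyT T n M δ k0 e a G L)) :=
        mul_le_mul_of_nonneg_right hcst (by positivity)
    _ = _ := by
        rw [mul_pow]; ring

end

end Pool.Agent.Helper36.SG2
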